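import Pool.Agent.WW.Bridge
import Pool.Agent.WW.TupHeight

/-!
Rohrlich's question on products of gamma values for almost all tuples.

`U(D)` is `classBound D`, equal to `2` for `D` prime and `160 (D / φ(D)) τ(D) (1 + log D) ^ 2`
otherwise.

* For all `D, r ≥ 2` at most `(2 U + 2) (D - 1) ^ (r - 1)` of the `r`-tuples `(j_i / D)`,
  `0 < j_i < D`, violate the equivalence of the question; for `r ≥ 3`, at most
  `(2 U + 2) (D - 1) ^ (r - 2)` of those with sum `r / 2` do.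
* For all `N` and `r ≥ 1`, for 100 percent of the `r`-tuples `x` of rational numbers in `(0, 1)`,
  ordered by their height, the equivalence holds for all tuples of length at most `N` built from
  `± x_i`, `1 / 2` and integers.

All proofs are complete, including the theorem on quotients of two beta values
(Wolfart and Wüstholz) on which they are based.
-/

namespace Pool.Agent.Results.MP_c2409d_nt.AlmostAll

open Pool.Agent.Helper29.Rohr Pool.Agent.WW Filter Topology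

theorem result :
    (∀ D : ℕ, 2 ≤ D → ∀ z : ℝ,
      (count D 1 z : ℝ) ^ 2 ≤ (2 * classBound D + 1) * ((D : ℝ) - 1) ∧
      ∀ r : ℕ, 2 ≤ r → (count D r z : ℝ) ≤ (2 * classBound D + 1) * ((D : ℝ) - 1) ^ (r - 1)) ∧
    (∀ D : ℕ, 2 ≤ D →
      (∀ r : ℕ, 2 ≤ r → (fails D r : ℝ) ≤ (2 * classBound D + 2) * ((D : ℝ) - 1) ^ (r - 1)) ∧
      (∀ r : ℕ, 3 ≤ r →
        (failsHalf D r : ℝ) ≤ (2 * classBound D + 2) * ((D : ℝ) - 1) ^ (r - 2))) ∧
    (∀ r : ℕ, 3 ≤ r →
      Tendsto (fun D : ℕ => (failsHalf D r : ℝ) / numHalf D r) atTop (𝓝 0)) ∧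
    (∀ N r D : ℕ, 2 ≤ D → (notRohr (ratLevel D) N r : ℝ) ≤
      (2 * N + 1) ^ r * (N + 1) * ((D : ℝ) - 1) ^ (r - 1) *
        (Real.sqrt ((2 * classBound D + 1) * ((D : ℝ) - 1)) + 1)) ∧
    (∀ N r : ℕ, 1 ≤ r → Tendsto (fun D : ℕ => (notRohr (ratLevel D) N r : ℝ) /
      ((D : ℝ) - 1) ^ r) atTop (𝓝 0)) ∧
    (∀ N r : ℕ, 1 ≤ r → Tendsto (fun X : ℕ => (notRohr (ratSet X) N r : ℝ) /
      ((ratSet X).card : ℝ) ^ r) atTop (𝓝 0)) := by
  obtain ⟨h1, -, h3⟩ := almost_all twoTerm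
  obtain ⟨w1, -, w3, w4, -⟩ := almost_all_words twoTerm
  exact ⟨fun D hD z => ⟨((h1 D hD).1 z).1, ((h1 D hD).1 z).2.1⟩, fun D hD => (h1 D hD).2, h3, w1,
    w3, w4⟩

end Pool.Agent.Results.MP_c2409d_nt.AlmostAll
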