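import Pool.Agent.GP.Sym

/-!
Algebraic independence of conjugate Beta values: for every complex number `θ` at most half of the
conjugates `B({tj/D}, {tk/D})`, `t` prime to `D`, of a Beta value are algebraic over `ℚ(θ)`.
-/

namespace Pool.Agent.Results.MP_c2409d_nt.BetaHalf

open IntermediateField

theorem result (D j k : ℕ) (hD : 3 ≤ D) (hj : ¬ D ∣ j) (hk : ¬ D ∣ k) (hjk : ¬ D ∣ j + k)
    (h : j.Coprime D ∨ k.Coprime D ∨ (j + k).Coprime D) (θ : ℂ) :
    2 * {t : ℕ | t < D ∧ t.Coprime D ∧ IsAlgebraic ℚ⟮θ⟯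
      ((Real.Gamma ((t * j % D : ℕ) / D) * Real.Gamma ((t * k % D : ℕ) / D) /
        Real.Gamma ((t * j % D : ℕ) / D + (t * k % D : ℕ) / D) : ℝ) : ℂ)}.ncard
      ≤ D.totient := by
  classical
  refine le_trans (le_of_eq ?_) (Pool.Agent.GP.thmA_sym D j k hD hj hk hjk h θ)
  rw [← Set.ncard_coe_finset]
  congr 2
  ext t
  simp only [Set.mem_ofPred_eq, Finset.mem_coe]
  rw [Finset.mem_filter, Finset.mem_range]

end Pool.Agent.Results.MP_c2409d_nt.BetaHalf
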