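import Pool.Agent.GP.DedMi

/-!
Algebraic independence of `π` and at least a quarter of the numbers `Γ(j/D)`, for every
denominator `D`, and Rohrlich's equivalence for the tuples built from such a number, its
reflection and half-integers.
-/

namespace Pool.Agent.Results.MP_c2409d_nt.GammaPi

/-- the gamma product is an algebraic multiple of `π ^ (r / 2)` -/
def GammaMult {r : ℕ} (a : Fin r → ℚ) : Prop :=
  ∃ α : ℝ, IsAlgebraic ℚ α ∧ ∏ i, Real.Gamma ((a i : ℚ) : ℝ) = α * Real.pi ^ ((r : ℝ) / 2)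

/-- the fractional part identity for the common denominator `D` -/
def FracId (D : ℕ) {r : ℕ} (a : Fin r → ℚ) : Prop :=
  ∀ m : ℕ, 1 ≤ m → m ≤ D → Nat.Coprime m D → ∑ i, Int.fract ((m : ℚ) * a i) = (r : ℚ) / 2

theorem result (D : ℕ) (hD : 3 ≤ D) : ∃ J : Finset ℕ, J ⊆ Finset.Ico 1 D ∧ D ≤ 4 * J.card + 2 ∧
    (D % 4 ≠ 2 → D.totient ≤ 4 * (J.filter fun j => Nat.Coprime j D).card) ∧
    ∀ j ∈ J, AlgebraicIndependent ℚ ![Real.pi, Real.Gamma ((j : ℝ) / D)] ∧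
      ∀ (r : ℕ) (a : Fin r → ℚ), (∀ (i : Fin r) (n : ℕ), a i ≠ -(n : ℚ)) →
        (∀ i, ∃ z : ℤ, a i = (j : ℚ) / D + z ∨ a i = -((j : ℚ) / D) + z ∨ a i = z / 2) →
        ∀ D' : ℕ, 0 < D' → (∀ i, ∃ z : ℤ, (D' : ℚ) * a i = z) → (GammaMult a ↔ FracId D' a) := by
  classical
  refine ⟨(Finset.Ico 1 D).filter fun j : ℕ =>
      AlgebraicIndependent ℚ ![Real.pi, Real.Gamma ((j : ℝ) / D)],
    Finset.filter_subset _ _, GP.DedM.thmB_pi GP.DedM.thmAll D, fun h2 => ?_, ?_⟩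
  · refine (GP.DedM.thmU_pi GP.DedM.thmAll hD h2).trans (Nat.mul_le_mul_left _ ?_)
    apply Finset.card_le_card
    intro j hj
    rw [Finset.mem_filter] at hj
    rw [Finset.mem_filter, Finset.mem_filter]
    exact ⟨⟨hj.1, hj.2.2⟩, hj.2.1⟩
  · intro j hj
    rw [Finset.mem_filter, Finset.mem_Ico] at hj
    exact ⟨hj.2, fun r a hnp ha D' hD0 hD' =>
      GP.DedM.iffGood hj.1.1 hj.1.2 hj.2 a hnp ha D' hD0 hD'⟩

end Pool.Agent.Results.MP_c2409d_nt.GammaPi
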